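import Pool.Agent.Helper53.KC.Goals

/-!
# KC-AVG: available vertices give many more stable sets
-/

namespace Pool.Agent.Helper19.KC

open Finset Pool.Agent.Helper53.KC

theorem adj_symm' {n : ℕ} {X Y : Finset (Fin n)} (h : adj X Y) : adj Y X :=
  ⟨h.1.symm, by rw [Finset.inter_comm, h.2, h.1]⟩

/-- AVG. -/
theorem avg (hGS : GsStmt) : AvgStmt := by
  classical
  intro n r D a hn hD h
  have hT : ∀ S : Finset (Finset (Fin n)), ∃ T ⊆ D.filter fun X => ∀ Y ∈ S, ¬ adj X Y, Stb T ∧
      (D.filter fun X => ∀ Y ∈ S, ¬ adj X Y).card ≤ n * T.card := fun S =>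
    hGS n r _ hn ((Finset.filter_subset _ _).trans hD)
  choose T hTA hTs hTc using hT
  set I : Finset (Finset (Finset (Fin n))) := ((V n r) \ D).powerset.filter Stb with hI
  have hIc : istab n r D = I.card := by
    rw [istab, hI]
  have hTD : ∀ S, T S ⊆ D := fun S => (hTA S).trans (Finset.filter_subset _ _)
  have h1 : (I.sigma fun S => (T S).powerset).card ≤ istab n r ∅ := by
    rw [istab]
    refine Finset.card_le_card_of_injOn (fun p => p.1 ∪ p.2) ?_ ?_
    · intro p hp
      have hp' : p ∈ I.sigma fun S => (T S).powerset := hp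
      rw [Finset.mem_sigma, hI, Finset.mem_filter, Finset.mem_powerset, Finset.mem_powerset] at hp'
      obtain ⟨⟨hp1, hp2⟩, hp3⟩ := hp'
      change p.1 ∪ p.2 ∈ ((V n r \ ∅).powerset.filter Stb)
      rw [Finset.mem_filter, Finset.mem_powerset]
      refine ⟨?_, ?_⟩
      · rw [Finset.sdiff_empty]
        exact Finset.union_subset (hp1.trans Finset.sdiff_subset)
          ((hp3.trans (hTD _)).trans hD)
      · intro X hX Y hY
        rcases Finset.mem_union.1 hX with hX | hX <;> rcases Finset.mem_union.1 hY with hY | hY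
        · exact hp2 X hX Y hY
        · intro had
          exact (Finset.mem_filter.1 (hTA _ (hp3 hY))).2 X hX (adj_symm' had)
        · exact (Finset.mem_filter.1 (hTA _ (hp3 hX))).2 Y hY
        · exact hTs _ X (hp3 hX) Y (hp3 hY)
    · intro p hp q hq hpq
      have hp' : p ∈ I.sigma fun S => (T S).powerset := hp
      have hq' : q ∈ I.sigma fun S => (T S).powerset := hq
      rw [Finset.mem_sigma, hI, Finset.mem_filter, Finset.mem_powerset, Finset.mem_powerset]
        at hp' hq'
      have hpq' : p.1 ∪ p.2 = q.1 ∪ q.2 := hpq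
      have key : ∀ (A B : Finset (Finset (Fin n))), A ⊆ V n r \ D → B ⊆ D →
          A = (A ∪ B) \ D ∧ B = (A ∪ B) ∩ D := by
        intro A B hA hB
        constructor
        · ext x
          simp only [Finset.mem_sdiff, Finset.mem_union]
          constructor
          · intro hx
            exact ⟨Or.inl hx, (Finset.mem_sdiff.1 (hA hx)).2⟩
          · rintro ⟨hx | hx, hx'⟩
            · exact hx
            · exact absurd (hB hx) hx'
        · ext x
          simp only [Finset.mem_inter, Finset.mem_union]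
          constructor
          · intro hx
            exact ⟨Or.inr hx, hB hx⟩
          · rintro ⟨hx | hx, hx'⟩
            · exact absurd hx' (Finset.mem_sdiff.1 (hA hx)).2
            · exact hx
      obtain ⟨k1, k2⟩ := key p.1 p.2 hp'.1.1 (hp'.2.trans (hTD _))
      obtain ⟨k3, k4⟩ := key q.1 q.2 hq'.1.1 (hq'.2.trans (hTD _))
      refine Sigma.ext ?_ (heq_of_eq ?_)
      · rw [k1, k3, hpq']
      · rw [k2, k4, hpq']
  rw [Finset.card_sigma] at h1
  have h2 : ∑ S ∈ I, (2 : ℝ) ^ (T S).card ≤ (istab n r ∅ : ℝ) := by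
    have h3 : ((∑ S ∈ I, ((T S).powerset).card : ℕ) : ℝ) ≤ (istab n r ∅ : ℝ) := by
      exact_mod_cast h1
    push_cast [Finset.card_powerset] at h3
    exact h3
  refine le_trans ?_ h2
  rw [hIc] at h ⊢
  have hn' : (0 : ℝ) < n := by exact_mod_cast hn
  have hlog : 0 < Real.log 2 := Real.log_pos (by norm_num)
  have h4 : ∀ S ∈ I, (2 : ℝ) ^ (a / n) * (1 + Real.log 2 *
      (((D.filter fun X => ∀ Y ∈ S, ¬ adj X Y).card : ℝ) / n - a / n)) ≤
      (2 : ℝ) ^ (T S).card := by
    intro S _
    have h5 : ((D.filter fun X => ∀ Y ∈ S, ¬ adj X Y).card : ℝ) / n ≤ (T S).card := by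
      rw [div_le_iff₀ hn']
      have := hTc S
      have h6 : ((D.filter fun X => ∀ Y ∈ S, ¬ adj X Y).card : ℝ) ≤ ((n * (T S).card : ℕ) : ℝ) := by
        exact_mod_cast this
      push_cast at h6
      linarith
    have h7 : (2 : ℝ) ^ (T S).card =
        (2 : ℝ) ^ (a / n) * Real.exp (Real.log 2 * ((T S).card - a / n)) := by
      rw [Real.exp_mul, Real.exp_log (by norm_num), ← Real.rpow_add (by norm_num),
        ← Real.rpow_natCast]
      congr 1
      ring
    rw [h7]
    refine mul_le_mul_of_nonneg_left ?_ (Real.rpow_nonneg (by norm_num) _)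
    refine le_trans ?_ (Real.add_one_le_exp _)
    have h8 := mul_le_mul_of_nonneg_left (sub_le_sub_right h5 (a / n)) hlog.le
    linarith
  refine le_trans ?_ (Finset.sum_le_sum h4)
  rw [← Finset.mul_sum, mul_comm (I.card : ℝ)]
  refine mul_le_mul_of_nonneg_left ?_ (Real.rpow_nonneg (by norm_num) _)
  rw [Finset.sum_add_distrib, ← Finset.mul_sum, Finset.sum_sub_distrib, ← Finset.sum_div]
  simp only [Finset.sum_const, nsmul_eq_mul, mul_one]
  have h9 : 0 ≤ (∑ S ∈ I, ((D.filter fun X => ∀ Y ∈ S, ¬ adj X Y).card : ℝ)) / n -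
      (I.card : ℝ) * (a / n) := by
    rw [mul_div_assoc', div_sub_div_same]
    refine div_nonneg ?_ hn'.le
    linarith
  have h10 := mul_nonneg hlog.le h9
  linarith

end Pool.Agent.Helper19.KC
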